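import Pool.Agent.MP_5f0aae_co.As.Defs

/-! The proportion of irreducible graphs in the sparse range: definitions, basic facts and the
statements of the steps. -/

namespace Pool.Agent.MP_5f0aae_co.As

open Finset Real

section Pairs

variable {V : Type} [DecidableEq V]

/-- The pairs of different points of `F`. -/
def prs (F : Finset V) : Finset (Sym2 V) := F.sym2.filter fun e => ¬ e.IsDiag

/-- The degree of a point in a set of lines. -/
def dg (A : Finset (Sym2 V)) (u : V) : ℕ := (A.filter fun e => u ∈ e).card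

theorem mem_prs {F : Finset V} {e : Sym2 V} : e ∈ prs F ↔ (∀ a ∈ e, a ∈ F) ∧ ¬ e.IsDiag := by
  simp [prs, mem_sym2_iff]

theorem mk_mem_prs {F : Finset V} {a b : V} : s(a, b) ∈ prs F ↔ a ∈ F ∧ b ∈ F ∧ a ≠ b := by
  simp [prs, and_assoc]

theorem prs_mono {F F' : Finset V} (h : F ⊆ F') : prs F ⊆ prs F' := fun _ he =>
  mem_prs.2 ⟨fun a ha => h ((mem_prs.1 he).1 a ha), (mem_prs.1 he).2⟩

theorem card_prs (F : Finset V) : (prs F).card = F.card.choose 2 := by
  rw [← Sym2.card_image_offDiag]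
  congr 1
  ext e
  induction e using Sym2.ind with
  | _ a b =>
    rw [mk_mem_prs, mem_image]
    constructor
    · exact fun h => ⟨(a, b), mem_offDiag.2 h, rfl⟩
    · rintro ⟨⟨c, d⟩, h, e⟩
      have h := mem_offDiag.1 h
      rcases Sym2.eq_iff.1 e with ⟨rfl, rfl⟩ | ⟨rfl, rfl⟩
      exacts [h, ⟨h.2.1, h.1, h.2.2.symm⟩]

theorem card_star {F : Finset V} {u : V} (hu : u ∈ F) :
    ((prs F).filter fun e => u ∈ e).card = F.card - 1 := by
  rw [← card_erase_of_mem hu]
  symm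
  refine card_bij (fun a _ => s(u, a)) (fun a ha => ?_) (fun a _ b _ h => ?_) fun e he => ?_
  · have := mem_erase.1 ha
    exact mem_filter.2 ⟨mk_mem_prs.2 ⟨hu, this.2, this.1.symm⟩, by simp⟩
  · exact Sym2.congr_right.1 h
  · obtain ⟨h1, h2⟩ := mem_filter.1 he
    obtain ⟨a, rfl⟩ := Sym2.mem_iff_exists.1 h2
    have := mk_mem_prs.1 h1
    exact ⟨a, mem_erase.2 ⟨this.2.2.symm, this.2.1⟩, rfl⟩

theorem dg_mono {A B : Finset (Sym2 V)} (h : A ⊆ B) (u : V) : dg A u ≤ dg B u :=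
  card_le_card (filter_subset_filter _ h)

theorem dg_eq {E A : Finset (Sym2 V)} (h : A ⊆ E) (u : V) :
    dg A u = (A ∩ E.filter fun e => u ∈ e).card := by
  rw [dg]
  congr 1
  ext e
  simp only [mem_filter, mem_inter]
  exact ⟨fun k => ⟨k.1, h k.1, k.2⟩, fun k => ⟨k.1, k.2.2⟩⟩

/-- The graph with given lines. -/
def gr (A : Finset (Sym2 V)) : SimpleGraph V := SimpleGraph.fromEdgeSet (A : Set (Sym2 V))

theorem edgeSet_gr {F : Finset V} {A : Finset (Sym2 V)} (h : A ⊆ prs F) :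
    (gr A).edgeSet = A := by
  rw [gr, SimpleGraph.edgeSet_fromEdgeSet]
  ext e
  exact ⟨fun k => k.1, fun k => ⟨k, (mem_prs.1 (h k)).2⟩⟩

theorem ncard_edgeSet_gr {F : Finset V} {A : Finset (Sym2 V)} (h : A ⊆ prs F) :
    (gr A).edgeSet.ncard = A.card := by rw [edgeSet_gr h, Set.ncard_coe_finset]

theorem ncard_neighborSet_gr {F : Finset V} {A : Finset (Sym2 V)} (h : A ⊆ prs F) (v : V) :
    ((gr A).neighborSet v).ncard = dg A v := by
  rw [dg, ← Set.ncard_coe_finset]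
  refine Set.ncard_congr (fun a _ => s(v, a)) (fun a ha => ?_)
    (fun a b _ _ k => Sym2.congr_right.1 k) fun e he => ?_
  · have : s(v, a) ∈ (gr A).edgeSet := ha
    rw [edgeSet_gr h] at this
    exact mem_coe.2 (mem_filter.2 ⟨this, by simp⟩)
  · obtain ⟨h1, h2⟩ := mem_filter.1 (mem_coe.1 he)
    obtain ⟨a, rfl⟩ := Sym2.mem_iff_exists.1 h2
    refine ⟨a, ?_, rfl⟩
    show s(v, a) ∈ (gr A).edgeSet
    rw [edgeSet_gr h]
    exact h1

end Pairs

section Prob

variable {α : Type} {E : Finset α} {x : ℝ} {P Q : Finset α → Prop}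

open Classical in
/-- The probability of an event for a random subset of `E`, each element with weight `x`. -/
noncomputable def pr (E : Finset α) (x : ℝ) (P : Finset α → Prop) : ℝ :=
  (∑ A ∈ E.powerset, if P A then x ^ A.card else 0) / (1 + x) ^ E.card

theorem pr_nonneg (hx : 0 ≤ x) : 0 ≤ pr E x P := by
  refine div_nonneg (sum_nonneg fun _ _ => ?_) (by positivity)
  split_ifs <;> positivity

theorem pr_mono (hx : 0 ≤ x) (h : ∀ A ⊆ E, P A → Q A) : pr E x P ≤ pr E x Q := by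
  refine div_le_div_of_nonneg_right (sum_le_sum fun A hA => ?_) (by positivity)
  split_ifs with h1 h2 h2
  exacts [le_rfl, absurd (h A (mem_powerset.1 hA) h1) h2, by positivity, le_rfl]

theorem pr_congr (hx : 0 ≤ x) (h : ∀ A ⊆ E, P A ↔ Q A) : pr E x P = pr E x Q :=
  (pr_mono hx fun A k => (h A k).1).antisymm (pr_mono hx fun A k => (h A k).2)

theorem sum_pow_card (E : Finset α) (x : ℝ) : ∑ A ∈ E.powerset, x ^ A.card = (1 + x) ^ E.card := by
  have := prod_one_add (s := E) (f := fun _ => x)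
  simpa using this.symm

theorem pr_one (hx : 0 ≤ x) (h : ∀ A ⊆ E, P A) : pr E x P = 1 := by
  rw [pr, sum_congr rfl fun A hA => if_pos (h A (mem_powerset.1 hA)), sum_pow_card,
    div_self (by positivity)]

theorem pr_le_one (hx : 0 ≤ x) : pr E x P ≤ 1 :=
  (pr_mono hx fun _ _ _ => trivial).trans (pr_one (P := fun _ => True) hx fun _ _ => trivial).le

theorem pr_split (P Q : Finset α → Prop) :
    pr E x P = pr E x (fun A => P A ∧ Q A) + pr E x (fun A => P A ∧ ¬ Q A) := by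
  rw [pr, pr, pr, ← add_div, ← sum_add_distrib]
  congr 1
  refine sum_congr rfl fun A _ => ?_
  by_cases h1 : P A <;> by_cases h2 : Q A <;> simp [h1, h2]

theorem pr_not (hx : 0 ≤ x) (P : Finset α → Prop) : pr E x (fun A => ¬ P A) = 1 - pr E x P := by
  have h := pr_split (E := E) (x := x) (fun _ => True) P
  rw [pr_one hx fun _ _ => trivial] at h
  simp only [true_and] at h
  linarith

theorem pr_union (hx : 0 ≤ x) {ι : Type} (s : Finset ι) (R : ι → Finset α → Prop) :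
    pr E x (fun A => ∃ i ∈ s, R i A) ≤ ∑ i ∈ s, pr E x (R i) := by
  simp only [pr]
  rw [← sum_div, sum_comm]
  refine div_le_div_of_nonneg_right (sum_le_sum fun A _ => ?_) (by positivity)
  have h0 : ∀ i ∈ s, 0 ≤ @ite _ (R i A) (Classical.propDecidable _) (x ^ A.card) 0 :=
    fun i _ => by split_ifs <;> positivity
  split_ifs with h
  · obtain ⟨i, hi, h⟩ := h
    refine le_trans ?_ (single_le_sum h0 hi)
    rw [if_pos h]
  · exact sum_nonneg h0

end Prob

/-- The number of labelled graphs divided by the number of labellings. -/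
noncomputable def aa (n q : ℕ) : ℝ := ((n.choose 2).choose q : ℝ) / n.factorial

/-- Its largest value. -/
noncomputable def MM (q : ℕ) : ℝ := ⨆ n, aa n q

/-- The window of the typical numbers of points. -/
def Win (n q : ℕ) : Prop := 2 ≤ n ∧ |2 * (q : ℝ) / n - log n| ≤ 3 / log n

/-- The number of isomorphism classes of graphs with a property. -/
noncomputable def cls (p : ℕ) (P : SimpleGraph (Fin p) → Prop) : ℕ :=
  Nat.card (Quot fun G H : {G : SimpleGraph (Fin p) // P G} => Nonempty (G.1 ≃g H.1))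

/-- The points that lie on a line. -/
def sp {p : ℕ} (A : Finset (Sym2 (Fin p))) : Finset (Fin p) := univ.filter fun v => 0 < dg A v

/-- The automorphisms that fix the isolated points. -/
def au {p : ℕ} (A : Finset (Sym2 (Fin p))) : Finset (Equiv.Perm (Fin p)) :=
  univ.filter fun σ => (∀ e ∈ A, Sym2.map σ e ∈ A) ∧ ∀ v, v ∉ sp A → σ v = v

/-- the inequalities of Harris -/
def HAR_st : Prop := ∀ (α : Type) [DecidableEq α] (E : Finset α) (x : ℝ) (P Q : Finset α → Prop),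
  0 ≤ x → Monotone P → (Monotone Q → pr E x P * pr E x Q ≤ pr E x fun A => P A ∧ Q A) ∧
    (Antitone Q → (pr E x fun A => P A ∧ Q A) ≤ pr E x P * pr E x Q)

/-- independence, exact values and tails -/
def IND_st : Prop := ∀ (α : Type) [DecidableEq α] (E K : Finset α) (x : ℝ), 0 ≤ x → K ⊆ E →
  (∀ P Q : Finset α → Prop, (pr E x fun A => P (A ∩ K) ∧ Q (A \ K)) =
    (pr E x fun A => P (A ∩ K)) * pr E x fun A => Q (A \ K)) ∧
  (∀ k : ℕ, (pr E x fun A => (A ∩ K).card = k) = K.card.choose k * x ^ k / (1 + x) ^ K.card) ∧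
  (∀ (k : ℕ) (t : ℝ), 0 < t → t ≤ 1 →
    (pr E x fun A => (A ∩ K).card ≤ k) ≤ exp (-(x / (1 + x) * (1 - t) * K.card)) / t ^ k) ∧
  (∀ (k : ℕ) (t : ℝ), 1 ≤ t →
    (pr E x fun A => k ≤ (A ∩ K).card) ≤ exp (x / (1 + x) * (t - 1) * K.card) / t ^ k) ∧
  (pr E x fun A => K ⊆ A) ≤ x ^ K.card

open Classical in
/-- from the product measure to a fixed size -/
def TRF_st : Prop := ∀ (α : Type) [DecidableEq α] (E : Finset α) (q : ℕ) (P : Finset α → Prop),
  (0 < q → q < E.card → (((E.powersetCard q).filter P).card : ℝ) ≤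
    E.card.choose q * (E.card + 1) * pr E (q / (E.card - q)) P) ∧
  ∀ x : ℝ, 0 ≤ x → Monotone P → q ≤ E.card →
    E.card.choose q * (pr E x P - pr E x fun A => q < A.card) ≤ ((E.powersetCard q).filter P).card

/-- all degrees in a set are at least three -/
def UPP_st : Prop := ∀ (V : Type) [DecidableEq V] (F T : Finset V) (x γ : ℝ), 0 ≤ x → T ⊆ F →
  2 ≤ F.card → γ = 4 * exp (-(x / (1 + x) * (F.card - 2) / 4)) → γ ≤ 1 / 2 →
  (pr (prs F) x fun A => ∀ u ∈ T, 3 ≤ dg A u) ≤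
    exp (-(T.card * ((F.card - 1).choose 2 * x ^ 2 / (1 + x) ^ (F.card - 1) *
      exp (-(2 * x * F.card * γ)))))

/-- no degree two outside a set -/
def NDG_st : Prop := ∀ (V : Type) [DecidableEq V] (F S : Finset V) (x γ d : ℝ), 0 ≤ x →
  2 ≤ F.card → γ = 4 * exp (-(x / (1 + x) * (F.card - 2) / 4)) → d = x / (1 + x) * F.card →
  1 ≤ d → exp 2 * d * γ ≤ 1 / 2 →
  (pr (prs F) x fun A => ∀ u ∈ F, u ∉ S → dg A u ≠ 2) ≤
    exp (-((F.card - S.card) * ((F.card - 1).choose 2 * x ^ 2 / (1 + x) ^ (F.card - 1) *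
      exp (-(2 * x * F.card * γ))))) * (exp (exp 3 * d * F.card * exp (-d)) + 1)

open Classical in
/-- the labelled upper bound -/
def LA_st : Prop := ∃ (C : ℝ) (n₀ : ℕ), 0 ≤ C ∧ ∀ (V : Type) [DecidableEq V] (F S : Finset V) (q : ℕ),
  n₀ ≤ F.card → Win F.card q → S.card * log F.card ≤ F.card →
  ((((prs F).powersetCard q).filter fun A => ∀ u ∈ F, u ∉ S → dg A u ≠ 2).card : ℝ) ≤
    (F.card.choose 2).choose q * exp (-(log F.card ^ 2 / 2) + C * log F.card)

open Classical in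
/-- the labelled lower bound -/
def LB_st : Prop := ∃ (C : ℝ) (n₀ : ℕ), 0 ≤ C ∧ ∀ (V : Type) [DecidableEq V] (F : Finset V) (q : ℕ),
  n₀ ≤ F.card → Win F.card q →
  (F.card.choose 2).choose q * exp (-(log F.card ^ 2 / 2) - C * log F.card) ≤
    (((prs F).powersetCard q).filter fun A => ∀ u ∈ F, 3 ≤ dg A u).card

/-- the ratio of consecutive terms -/
def RAT_st : Prop := ∀ i q : ℕ, aa i q * exp (2 * q / (i + 1) - log (i + 1)) ≤ aa (i + 1) q ∧
  (q < i.choose 2 → aa (i + 1) q ≤ aa i q * exp (q * i / (i.choose 2 - q) - log (i + 1)))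

/-- outside the window the terms are small -/
def WIN_st : Prop := ∃ q₀ : ℕ, ∀ q n : ℕ, q₀ ≤ q → ¬ Win n q →
  ∃ n', aa n q ≤ exp (-(log q ^ 2)) * aa n' q

/-- consequences of the window -/
def CON_st : Prop := ∃ q₀ : ℕ, ∀ q n : ℕ, q₀ ≤ q → Win n q → q / log q ≤ n ∧ n ≤ q ∧
  log q - log (log q) ≤ log n ∧ log n ≤ log q - log (log q) + 3 ∧
  n * (log q - log (log q) - 1) ≤ 2 * q

/-- crude bounds -/
def CRU_st : Prop := (∀ n q : ℕ, aa n q ≤ 32 * (q : ℝ) ^ q) ∧
  ∃ q₀ : ℕ, ∀ q : ℕ, q₀ ≤ q → ∃ n, (q / (32 * log q ^ 2)) ^ q ≤ aa n q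

/-- the largest term -/
def MST_st : Prop := (∀ n q, aa n q ≤ MM q) ∧ ∃ q₀ : ℕ, ∀ q : ℕ, q₀ ≤ q →
  (∃ n, Win n q ∧ 0 < aa n q ∧ MM q ≤ 2 * aa n q) ∧
  ∀ j ≤ q, MM (q - j) ≤ 32 * ((32 * log q ^ 2) ^ 2 / q) ^ j * MM q

/-- the lower bound for the number of classes -/
def LOW_st : Prop := ∀ (p : ℕ) (P : SimpleGraph (Fin p) → Prop) (F : Finset (Fin p))
  (𝒜 : Finset (Finset (Sym2 (Fin p)))), (∀ A ∈ 𝒜, A ⊆ prs F ∧ P (gr A)) →
  𝒜.card ≤ F.card.factorial * cls p P

open Classical in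
/-- the count of Burnside -/
def BUR_st : Prop := ∀ (p : ℕ) (P : SimpleGraph (Fin p) → Prop),
  (∀ G H, Nonempty (G ≃g H) → P G → P H) →
  cls p P * p.factorial ≤ ∑ A ∈ (prs (univ : Finset (Fin p))).powerset.filter fun A => P (gr A),
    (au A).card * (p - (sp A).card).factorial

open Classical in
/-- invariant sets -/
def INV_st : Prop := ∀ (α : Type) [DecidableEq α] (τ : Equiv.Perm α) (K : Finset α) (j : ℕ) (y : ℝ),
  0 < y → y ≤ 1 → (((K.powersetCard j).filter fun D => ∀ e ∈ D, τ e ∈ D).card : ℝ) ≤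
    2 ^ (K.filter fun e => τ e = e).card * (exp (y * K.card) / √y ^ j)

open Classical in
/-- the encoding of a graph with an automorphism -/
def ENC_st : Prop := ∀ (p q : ℕ) (R : Finset (Sym2 (Fin p)) → Prop) (β : ℕ → ℝ), 1 ≤ q →
  (∀ j, 0 ≤ β j) →
  (∀ (F : Finset (Fin p)) (D : Finset (Sym2 (Fin p))), D.card ≤ q → Disjoint D (prs F) →
    ((((prs F).powersetCard (q - D.card)).filter fun B => R (B ∪ D)).card : ℝ) ≤
      F.card.factorial * β D.card) →
  ((∑ A ∈ ((prs (univ : Finset (Fin p))).powersetCard q).filter R,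
      (au A).card * (p - (sp A).card).factorial : ℕ) : ℝ) ≤
    p.factorial * ((2 * q + 1) * ∑ j ∈ range (q + 1), (2 * j + 1) * (4 * exp 4 * √q) ^ j * β j)

end Pool.Agent.MP_5f0aae_co.As
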