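import Pool.Agent.MP_5f0aae_co.Defs

namespace Pool.Agent.MP_5f0aae_co

/-- The number of isomorphism classes of graphs with `p` points and `q` lines. -/
noncomputable def gcount (p q : ℕ) : ℕ :=
  Nat.card (Quot fun G H : {G : SimpleGraph (Fin p) // G.edgeSet.ncard = q} =>
    Nonempty (G.1 ≃g H.1))

end Pool.Agent.MP_5f0aae_co
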