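import Pool.Agent.MP_5f0aae_co.As.Base

/-! The inequalities of Harris and the consequences of the window. -/

namespace Pool.Agent.MP_5f0aae_co.As

open Finset Real

theorem up_HAR {α : Type} [DecidableEq α] (E : Finset α) {x : ℝ} {P Q : Finset α → Prop}
    (hx : 0 ≤ x) (hP : Monotone P) (hQ : Monotone Q) :
    pr E x P * pr E x Q ≤ pr E x fun A => P A ∧ Q A := by
  classical
  have key := Finset.four_functions_theorem (β := ℝ)
    (f₁ := fun A : Finset α => @ite _ (P A) (Classical.propDecidable _) (x ^ A.card) 0)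
    (f₂ := fun A : Finset α => @ite _ (Q A) (Classical.propDecidable _) (x ^ A.card) 0)
    (f₃ := fun A : Finset α => x ^ A.card)
    (f₄ := fun A : Finset α => @ite _ (P A ∧ Q A) (Classical.propDecidable _) (x ^ A.card) 0) E
    (fun A => by dsimp only [Pi.zero_apply]; split_ifs <;> positivity)
    (fun A => by dsimp only [Pi.zero_apply]; split_ifs <;> positivity)
    (fun A => by dsimp only [Pi.zero_apply]; positivity)
    (fun A => by dsimp only [Pi.zero_apply]; split_ifs <;> positivity)
    (fun s _ t _ => by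
      by_cases h1 : P s
      · by_cases h2 : Q t
        · have h3 : P (s ∪ t) ∧ Q (s ∪ t) :=
            ⟨hP subset_union_left h1, hQ subset_union_right h2⟩
          rw [if_pos h1, if_pos h2, if_pos h3, ← pow_add, ← pow_add, add_comm (s ∩ t).card,
            card_union_add_card_inter]
        · rw [if_neg h2, mul_zero]
          split_ifs <;> positivity
      · rw [if_neg h1, zero_mul]
        split_ifs <;> positivity)
    (𝒜 := E.powerset) (ℬ := E.powerset) subset_rfl subset_rfl
  rw [powerset_infs_powerset_self, powerset_sups_powerset_self, sum_pow_card] at key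
  have hD : 0 < (1 + x) ^ E.card := by positivity
  rw [pr, pr, pr, div_mul_div_comm, div_le_div_iff₀ (mul_pos hD hD) hD]
  calc _ ≤ _ := mul_le_mul_of_nonneg_right key hD.le
    _ = _ := by ring

theorem HAR_pf : HAR_st := by
  intro α _ E x P Q hx hP
  refine ⟨up_HAR E hx hP, fun hQ => ?_⟩
  have h := up_HAR E hx hP (Q := fun A => ¬ Q A) fun _ _ hab ha hb => ha (hQ hab hb)
  rw [pr_not hx] at h
  have h2 := pr_split (E := E) (x := x) P Q
  linarith

theorem CON_pf : CON_st := by
  refine ⟨⌈exp 6⌉₊, fun q n hq hw => ?_⟩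
  obtain ⟨hn, hw⟩ := hw
  have hq6 : exp 6 ≤ (q : ℝ) := Nat.ceil_le.1 hq
  have hq0 : (0 : ℝ) < q := (exp_pos 6).trans_le hq6
  have hL : 6 ≤ log (q : ℝ) := (le_log_iff_exp_le hq0).2 hq6
  have hn2 : (2 : ℝ) ≤ n := by exact_mod_cast hn
  have hn0 : (0 : ℝ) < n := by linarith
  have h2 := log_two_gt_d9
  have h2' := log_two_lt_d9
  have hl : log 2 ≤ log (n : ℝ) := log_le_log (by norm_num) hn2
  have hl0 : 0 < log (n : ℝ) := by linarith
  have hL0 : 0 < log (q : ℝ) := by linarith
  have hLL : log (log (q : ℝ)) ≤ log q / 2 := by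
    have e : log (log (q : ℝ)) = log (log q / 2) + log 2 := by
      rw [← log_mul (by positivity) (by norm_num)]
      congr 1
      ring
    have := log_le_sub_one_of_pos (show 0 < log (q : ℝ) / 2 by positivity)
    linarith
  have hLL0 : 0 ≤ log (log (q : ℝ)) := log_nonneg (by linarith)
  obtain ⟨w1, w2⟩ := abs_le.1 hw
  have hdiv : log ((q : ℝ) / log q) = log q - log (log q) := log_div hq0.ne' hL0.ne'
  have c1 : (q : ℝ) / log q ≤ n := by
    by_contra hc
    have hc := not_le.1 hc
    have a1 : log (n : ℝ) ≤ log ((q : ℝ) / log q) := log_le_log hn0 hc.le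
    have a2 : 3 / log (n : ℝ) ≤ 5 := by
      rw [div_le_iff₀ hl0]
      linarith
    have a3 : 2 * log (q : ℝ) ≤ 2 * q / n := by
      rw [le_div_iff₀ hn0]
      have := (lt_div_iff₀ hL0).1 hc
      linarith
    linarith
  have c3 : log (q : ℝ) - log (log q) ≤ log n := by
    rw [← hdiv]
    exact log_le_log (by positivity) c1
  have a4 : 3 / log (n : ℝ) ≤ 1 := by
    rw [div_le_iff₀ hl0]
    linarith
  have a5 : (log (n : ℝ) - 1) * n ≤ 2 * q := by
    rw [← le_div_iff₀ hn0]
    linarith
  have c5 : (n : ℝ) * (log q - log (log q) - 1) ≤ 2 * q := by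
    have := mul_le_mul_of_nonneg_left c3 hn0.le
    linarith
  refine ⟨c1, ?_, c3, ?_, c5⟩
  · have : (n : ℝ) * 2 ≤ n * (log q - log (log q) - 1) :=
      mul_le_mul_of_nonneg_left (by linarith) hn0.le
    have : (n : ℝ) ≤ q := by linarith
    exact_mod_cast this
  · have a6 : (n : ℝ) * (log q / 4) ≤ n * (log q - log (log q) - 1) :=
      mul_le_mul_of_nonneg_left (by linarith) hn0.le
    have a7 : (n : ℝ) ≤ 2 ^ 3 * (q / log q) := by
      rw [← mul_div_assoc, le_div_iff₀ hL0]
      linarith
    have a8 := log_le_log hn0 a7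
    rw [log_mul (by norm_num) (by positivity), hdiv, log_pow] at a8
    push_cast at a8
    linarith

end Pool.Agent.MP_5f0aae_co.As
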