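import Pool.Agent.MP_5f0aae_co.As.Base

namespace Pool.Agent.MP_5f0aae_co.As

open Finset Real

variable {α : Type} [DecidableEq α]

theorem key_IND {E K : Finset α} (h : K ⊆ E) (f g : Finset α → ℝ) :
    ∑ A ∈ E.powerset, f (A ∩ K) * g (A \ K) =
      (∑ B ∈ K.powerset, f B) * ∑ C ∈ (E \ K).powerset, g C := by
  rw [sum_mul_sum, ← sum_product']
  refine sum_bij' (fun A _ => (A ∩ K, A \ K)) (fun p _ => p.1 ∪ p.2) ?_ ?_ ?_ ?_ ?_
  · intro A hA
    exact mem_product.2 ⟨mem_powerset.2 inter_subset_right,
      mem_powerset.2 (sdiff_subset_sdiff (mem_powerset.1 hA) le_rfl)⟩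
  · intro p hp
    obtain ⟨h1, h2⟩ := mem_product.1 hp
    exact mem_powerset.2 (union_subset ((mem_powerset.1 h1).trans h)
      ((mem_powerset.1 h2).trans sdiff_subset))
  · intro A _
    rw [union_comm]
    exact sdiff_union_inter A K
  · intro p hp
    obtain ⟨h1, h2⟩ := mem_product.1 hp
    have a1 := mem_powerset.1 h1
    have a2 := mem_powerset.1 h2
    refine Prod.ext ?_ ?_
    · ext a
      simp only [mem_inter, mem_union]
      exact ⟨fun k => k.1.resolve_right fun k' => (mem_sdiff.1 (a2 k')).2 k.2,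
        fun k => ⟨Or.inl k, a1 k⟩⟩
    · ext a
      simp only [mem_sdiff, mem_union]
      exact ⟨fun k => k.1.resolve_left fun k' => k.2 (a1 k'),
        fun k => ⟨Or.inr k, (mem_sdiff.1 (a2 k)).2⟩⟩
  · intro A _
    rfl

theorem prod_IND {E K : Finset α} {x : ℝ} (h : K ⊆ E) (P Q : Finset α → Prop) :
    (pr E x fun A => P (A ∩ K) ∧ Q (A \ K)) = pr K x P * pr (E \ K) x Q := by
  rw [pr, pr, pr, div_mul_div_comm, ← key_IND h, ← pow_add, add_comm K.card,
    card_sdiff_add_card_eq_card h]
  congr 1
  refine sum_congr rfl fun A _ => ?_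
  by_cases h1 : P (A ∩ K) <;> by_cases h2 : Q (A \ K) <;>
    simp only [h1, h2, and_self, and_true, and_false, if_true, if_false, mul_zero, zero_mul]
  rw [← pow_add, card_inter_add_card_sdiff]

theorem left_IND {E K : Finset α} {x : ℝ} (hx : 0 ≤ x) (h : K ⊆ E) (P : Finset α → Prop) :
    (pr E x fun A => P (A ∩ K)) = pr K x P := by
  have := prod_IND (x := x) h P fun _ => True
  rw [pr_one (P := fun _ => True) hx fun _ _ => trivial, mul_one] at this
  simpa only [and_true] using this

theorem right_IND {E K : Finset α} {x : ℝ} (hx : 0 ≤ x) (h : K ⊆ E) (Q : Finset α → Prop) :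
    (pr E x fun A => Q (A \ K)) = pr (E \ K) x Q := by
  have := prod_IND (x := x) h (fun _ => True) Q
  rw [pr_one (P := fun _ => True) hx fun _ _ => trivial, one_mul] at this
  simpa only [true_and] using this

theorem exact_IND (K : Finset α) (x : ℝ) (k : ℕ) :
    (pr K x fun B => B.card = k) = K.card.choose k * x ^ k / (1 + x) ^ K.card := by
  rw [pr, ← card_powersetCard, powersetCard_eq_filter, card_filter, Nat.cast_sum, sum_mul]
  congr 1
  refine sum_congr rfl fun B _ => ?_
  by_cases h : B.card = k <;> simp [h]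

theorem tail_IND (K : Finset α) {x t : ℝ} (hx : 0 ≤ x) (ht : 0 < t) (k : ℕ) (P : Finset α → Prop)
    (h : ∀ B, P B → t ^ k ≤ t ^ B.card) :
    pr K x P ≤ exp (x / (1 + x) * (t - 1) * K.card) / t ^ k := by
  have h1 : pr K x P ≤ (∑ B ∈ K.powerset, (t * x) ^ B.card / t ^ k) / (1 + x) ^ K.card := by
    refine div_le_div_of_nonneg_right (sum_le_sum fun B _ => ?_) (by positivity)
    split_ifs with hB
    · rw [le_div_iff₀ (by positivity), mul_pow, mul_comm]
      exact mul_le_mul_of_nonneg_right (h B hB) (by positivity)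
    · positivity
  refine h1.trans ?_
  rw [← sum_div, sum_pow_card, div_right_comm, ← div_pow, mul_comm _ (K.card : ℝ), exp_nat_mul]
  refine div_le_div_of_nonneg_right (pow_le_pow_left₀ (by positivity) ?_ _) (by positivity)
  refine le_trans (le_of_eq ?_) (add_one_le_exp _)
  field_simp
  ring

theorem IND_pf : IND_st := by
  intro α _ E K x hx h
  have e2 : ∀ k : ℕ, (pr E x fun A => (A ∩ K).card = k) =
      K.card.choose k * x ^ k / (1 + x) ^ K.card := fun k =>
    (left_IND hx h fun B => B.card = k).trans (exact_IND K x k)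
  refine ⟨fun P Q => by rw [prod_IND h, left_IND hx h, right_IND hx h], e2,
    fun k t h0 h1 => ?_, fun k t h1 => ?_, ?_⟩
  · refine (left_IND hx h fun B => B.card ≤ k).trans_le ((tail_IND K hx h0 k _
      fun B hB => pow_le_pow_of_le_one h0.le h1 hB).trans_eq ?_)
    congr 2
    ring
  · exact (left_IND hx h fun B => k ≤ B.card).trans_le
      (tail_IND K hx (by linarith) k _ fun B hB => pow_le_pow_right₀ h1 hB)
  · refine (pr_mono hx fun A _ hA => ?_).trans ((e2 K.card).trans_le ?_)
    · rw [inter_eq_right.2 hA]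
    · rw [Nat.choose_self, Nat.cast_one, one_mul]
      exact div_le_self (by positivity) (one_le_pow₀ (by linarith))

end Pool.Agent.MP_5f0aae_co.As
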